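import Pool.Agent.Lib.MP_66609f_al.DN.Fin

namespace Pool.Agent.Results.MP_66609f_al.Literal

open Pool.Agent.Lib.MP_66609f_al Pool.Agent.Lib.MP_66609f_al.DN

/-- For every genus at least two, every finite subset of the mapping class group is contained in
a finite generating set whose growth series is not a rational function. -/
theorem result (g : ℕ) (hg : 2 ≤ g) (S0 : Finset (MCGtop g hg)) :
    ∃ S : Finset (MCGtop g hg), S0 ⊆ S ∧ Subgroup.closure (S : Set (MCGtop g hg)) = ⊤ ∧
      ¬ IsRational (growthSeries (S : Set (MCGtop g hg))) :=
  main_top g hg S0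

end Pool.Agent.Results.MP_66609f_al.Literal
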